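import Pool.Agent.Helper89.Vol4.Goals2

/-! # MP_cd13d2_co : the exact value of `V(4,7)`, packet V47-Q22E (equality in the planar inequality) -/

set_option autoImplicit false

namespace Pool.Agent.Helper75.Vol4.PkQ22E

open Set Pool.Agent.Helper86.Poly Pool.Agent.Helper89.Vol4

/-- the scaling factors -/
theorem scal {L : ℝ} (_h0 : 0 ≤ L) (h1 : L ≤ 1) : ∃ α β : ℝ, (0 ≤ L → 0 ≤ α) ∧ 0 ≤ β ∧ α * β = L ∧
    β ^ 2 * (4 - L) = 3 ∧ 3 * α ^ 2 = L ^ 2 * (4 - L) := by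
  have h4 : 0 < 4 - L := by linarith
  have ha : 0 ≤ (4 - L) / 3 := div_nonneg h4.le (by norm_num)
  have hb : 0 ≤ 3 / (4 - L) := div_nonneg (by norm_num) h4.le
  refine ⟨L * √((4 - L) / 3), √(3 / (4 - L)), fun h => mul_nonneg h (Real.sqrt_nonneg _),
    Real.sqrt_nonneg _, ?_, ?_, ?_⟩
  · rw [mul_assoc, ← Real.sqrt_mul ha]
    have e : (4 - L) / 3 * (3 / (4 - L)) = 1 := by field_simp
    rw [e, Real.sqrt_one, mul_one]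
  · rw [Real.sq_sqrt hb]
    field_simp
  · rw [mul_pow, Real.sq_sqrt ha]
    ring

theorem beta_le {L β : ℝ} (h1 : L ≤ 1) (hβ : β ^ 2 * (4 - L) = 3) : β ^ 2 ≤ 1 := by
  refine le_of_mul_le_mul_right ?_ (by linarith : 0 < 4 - L)
  rw [hβ]
  linarith

theorem alpha_le {L α β : ℝ} (h0 : 0 ≤ L) (h1 : L ≤ 1) (hβ0 : 0 ≤ β)
    (hβ : β ^ 2 * (4 - L) = 3) (hα : 3 * α ^ 2 = L ^ 2 * (4 - L)) : α ≤ β := by
  have q : α ^ 2 ≤ β ^ 2 := by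
    refine le_of_mul_le_mul_right ?_ (by linarith : 0 < 4 - L)
    rw [hβ]
    have e : 3 * (α ^ 2 * (4 - L)) = (L * (4 - L)) ^ 2 := by
      have e1 : 3 * (α ^ 2 * (4 - L)) = 3 * α ^ 2 * (4 - L) := by ring
      rw [e1, hα]
      ring
    have e2 : 0 ≤ L * (4 - L) := mul_nonneg h0 (by linarith)
    have e3 : L * (4 - L) ≤ 3 := by
      have := mul_nonneg (sub_nonneg.2 h1) (by linarith : 0 ≤ 3 - L)
      linarith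
    have e4 : (L * (4 - L)) ^ 2 ≤ 3 ^ 2 := pow_le_pow_left₀ e2 e3 2
    linarith
  exact (le_abs_self α).trans ((sq_le_sq.1 q).trans_eq (abs_of_nonneg hβ0))

/-- the first condition -/
theorem c1 {L α m0 n v1 l1 l2 : ℝ} (h0 : 0 ≤ L) (h1 : L ≤ 1)
    (hα : 3 * α ^ 2 = L ^ 2 * (4 - L)) (hl1 : L ≤ l1) (hl2 : L ≤ l2)
    (hO : (n - m0) ^ 2 + v1 ^ 2 ≤ 1 - l1 ^ 2 / 4)
    (hb : (n - m0 - 2 * n) ^ 2 + v1 ^ 2 ≤ 1 - l2 ^ 2 / 4) :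
    12 * ((α * |m0| + α * n) ^ 2 + (α * |v1|) ^ 2) ≤ L ^ 2 * (4 - L) * (4 - L ^ 2) := by
  have s1 : L ^ 2 ≤ l1 ^ 2 := pow_le_pow_left₀ h0 hl1 2
  have s2 : L ^ 2 ≤ l2 ^ 2 := pow_le_pow_left₀ h0 hl2 2
  have q : (|m0| + n) ^ 2 + v1 ^ 2 ≤ 1 - L ^ 2 / 4 := by
    rcases abs_cases m0 with ⟨e, _⟩ | ⟨e, _⟩
    · rw [e]
      have e2 : (m0 + n) ^ 2 = (n - m0 - 2 * n) ^ 2 := by ring
      rw [e2]
      linarith
    · rw [e]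
      have e2 : (-m0 + n) ^ 2 = (n - m0) ^ 2 := by ring
      rw [e2]
      linarith
  have e : 12 * ((α * |m0| + α * n) ^ 2 + (α * |v1|) ^ 2) =
      4 * (3 * α ^ 2) * ((|m0| + n) ^ 2 + |v1| ^ 2) := by ring
  rw [e, sq_abs, hα]
  have q2 : 0 ≤ 4 * (L ^ 2 * (4 - L)) := by
    have := mul_nonneg (sq_nonneg L) (by linarith : 0 ≤ 4 - L)
    linarith
  have q3 := mul_le_mul_of_nonneg_left q q2
  have e2 : 4 * (L ^ 2 * (4 - L)) * (1 - L ^ 2 / 4) = L ^ 2 * (4 - L) * (4 - L ^ 2) := by ring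
  linarith

theorem quart {L : ℝ} (h0 : 0 ≤ L) (h1 : L ≤ 1) : 0 < L ^ 4 - 3 * L ^ 3 - 7 * L ^ 2 + 9 * L + 9 := by
  have a1 : 0 ≤ L ^ 4 := pow_nonneg h0 4
  have a2 : 0 ≤ L ^ 2 * (1 - L) := mul_nonneg (sq_nonneg L) (sub_nonneg.2 h1)
  have a3 : 0 ≤ L * (1 - L) := mul_nonneg h0 (sub_nonneg.2 h1)
  nlinarith

theorem c1' {L : ℝ} (h0 : 0 ≤ L) (h1 : L ≤ 1) : L ^ 2 * (4 - L) * (4 - L ^ 2) ≤ 9 := by
  have e : 9 - L ^ 2 * (4 - L) * (4 - L ^ 2) =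
      (1 - L) * (L ^ 4 - 3 * L ^ 3 - 7 * L ^ 2 + 9 * L + 9) := by ring
  have := mul_nonneg (sub_nonneg.2 h1) (quart h0 h1).le
  linarith

theorem L_one {L : ℝ} (h0 : 0 ≤ L) (h1 : L ≤ 1) (h : 9 ≤ L ^ 2 * (4 - L) * (4 - L ^ 2)) :
    L = 1 := by
  have e : 9 - L ^ 2 * (4 - L) * (4 - L ^ 2) =
      (1 - L) * (L ^ 4 - 3 * L ^ 3 - 7 * L ^ 2 + 9 * L + 9) := by ring
  by_contra hne
  have hlt : L < 1 := lt_of_le_of_ne h1 hne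
  have := mul_pos (sub_pos.2 hlt) (quart h0 h1)
  linarith

/-- the fourth condition -/
theorem c4 {L α n : ℝ} (h0 : 0 ≤ L) (h1 : L ≤ 1) (hα : 3 * α ^ 2 = L ^ 2 * (4 - L))
    (hb : (2 * n) ^ 2 ≤ 1 - L / 2) : (α * n) ^ 2 ≤ 1 / 8 := by
  have q1 : 24 * (α * n) ^ 2 = 2 * (L ^ 2 * (4 - L)) * (2 * n) ^ 2 := by
    rw [← hα]
    ring
  have q0 : 0 ≤ 2 * (L ^ 2 * (4 - L)) := by
    have := mul_nonneg (sq_nonneg L) (by linarith : 0 ≤ 4 - L)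
    linarith
  have q2 := mul_le_mul_of_nonneg_left hb q0
  have q3 : 2 * (L ^ 2 * (4 - L)) * (1 - L / 2) ≤ 3 := by
    have e : 3 - 2 * (L ^ 2 * (4 - L)) * (1 - L / 2) =
        (1 - L) * (L ^ 3 - 5 * L ^ 2 + 3 * L + 3) := by ring
    have a1 : 0 ≤ L ^ 3 := pow_nonneg h0 3
    have a3 : 0 ≤ L * (1 - L) := mul_nonneg h0 (sub_nonneg.2 h1)
    have e2 : 0 ≤ L ^ 3 - 5 * L ^ 2 + 3 * L + 3 := by nlinarith
    have := mul_nonneg (sub_nonneg.2 h1) e2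
    linarith
  linarith

theorem pair3 {n u0 u1 w0 w1 l1 l2 L : ℝ} (hL : 2 * L ≤ l1 ^ 2 + l2 ^ 2)
    (hu1 : u0 ^ 2 + u1 ^ 2 ≤ 1 - l1 ^ 2 / 4) (hw1 : w0 ^ 2 + w1 ^ 2 ≤ 1 - l1 ^ 2 / 4)
    (hu2 : (u0 - 2 * n) ^ 2 + u1 ^ 2 ≤ 1 - l2 ^ 2 / 4)
    (hw2 : (w0 - 2 * n) ^ 2 + w1 ^ 2 ≤ 1 - l2 ^ 2 / 4) :
    (u0 + w0 - 2 * n) ^ 2 + (u1 + w1) ^ 2 + (|u0 - w0| + 2 * n) ^ 2 + (u1 - w1) ^ 2 ≤
      4 - L := by
  rcases abs_cases (u0 - w0) with ⟨e, _⟩ | ⟨e, _⟩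
  · rw [e]
    have e1 : (u0 + w0 - 2 * n) ^ 2 + (u1 + w1) ^ 2 + ((u0 - w0) + 2 * n) ^ 2 + (u1 - w1) ^ 2 =
        2 * (u0 ^ 2 + u1 ^ 2) + 2 * ((w0 - 2 * n) ^ 2 + w1 ^ 2) := by ring
    linarith
  · rw [e]
    have e1 : (u0 + w0 - 2 * n) ^ 2 + (u1 + w1) ^ 2 + (-(u0 - w0) + 2 * n) ^ 2 +
        (u1 - w1) ^ 2 = 2 * (w0 ^ 2 + w1 ^ 2) + 2 * ((u0 - 2 * n) ^ 2 + u1 ^ 2) := by ring
    linarith

/-- the third condition -/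
theorem c3 {L α β n g0 g1 s0 s1 : ℝ} (hα0 : 0 ≤ α) (hβ0 : 0 ≤ β) (hn : 0 ≤ n) (hαβ : α ≤ β)
    (hβ : β ^ 2 * (4 - L) = 3)
    (h : s0 ^ 2 + s1 ^ 2 + (|g0| + 2 * n) ^ 2 + g1 ^ 2 ≤ 4 - L) :
    (β * |s1|) ^ 2 + (β * |g0|) ^ 2 + (β * |g1|) ^ 2 + 4 * (α * n) ^ 2 +
      4 * (α * n) * (β * |g0|) ≤ 3 := by
  have q1 : α * n ≤ β * n := mul_le_mul_of_nonneg_right hαβ hn
  have q1' : 0 ≤ α * n := mul_nonneg hα0 hn
  have q2 : (α * n) ^ 2 ≤ (β * n) ^ 2 := pow_le_pow_left₀ q1' q1 2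
  have q3 : (α * n) * (β * |g0|) ≤ (β * n) * (β * |g0|) :=
    mul_le_mul_of_nonneg_right q1 (mul_nonneg hβ0 (abs_nonneg _))
  have q4 : β ^ 2 * (s0 ^ 2 + s1 ^ 2 + (|g0| + 2 * n) ^ 2 + g1 ^ 2) ≤ 3 := by
    rw [← hβ]
    exact mul_le_mul_of_nonneg_left h (sq_nonneg β)
  have q5 : (β * |s1|) ^ 2 = β ^ 2 * s1 ^ 2 := by rw [mul_pow, sq_abs]
  have q6 : (β * |g1|) ^ 2 = β ^ 2 * g1 ^ 2 := by rw [mul_pow, sq_abs]
  have q7 : 0 ≤ β ^ 2 * s0 ^ 2 := mul_nonneg (sq_nonneg _) (sq_nonneg _)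
  have e : β ^ 2 * (s0 ^ 2 + s1 ^ 2 + (|g0| + 2 * n) ^ 2 + g1 ^ 2) =
      β ^ 2 * s0 ^ 2 + β ^ 2 * s1 ^ 2 + (β * |g0|) ^ 2 + 4 * ((β * n) * (β * |g0|)) +
        4 * (β * n) ^ 2 + β ^ 2 * g1 ^ 2 := by ring
  have e2 : 4 * (α * n) * (β * |g0|) = 4 * ((α * n) * (β * |g0|)) := by ring
  rw [q5, q6, e2]
  rw [e] at q4
  linarith

/-- the value -/
theorem value {L α β m0 n v1 g0 g1 s1 F : ℝ} (hL0 : 0 ≤ L) (hn : 0 ≤ n) (hαβ : α * β = L)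
    (hF : F ≤ L * |m0 * g1 + v1 * g0 + n * s1|) :
    F ≤ α * |m0| * (β * |g1|) + α * |v1| * (β * |g0|) + α * n * (β * |s1|) := by
  have h1 : |m0 * g1 + v1 * g0 + n * s1| ≤ |m0| * |g1| + |v1| * |g0| + n * |s1| := by
    have e1 := abs_add_le (m0 * g1 + v1 * g0) (n * s1)
    have e2 := abs_add_le (m0 * g1) (v1 * g0)
    rw [abs_mul, abs_mul] at e2
    rw [abs_mul n, abs_of_nonneg hn] at e1
    linarith
  have h2 := mul_le_mul_of_nonneg_left h1 hL0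
  have e : α * |m0| * (β * |g1|) + α * |v1| * (β * |g0|) + α * n * (β * |s1|) =
      α * β * (|m0| * |g1| + |v1| * |g0| + n * |s1|) := by ring
  rw [e, hαβ]
  exact hF.trans h2

theorem one_of {a : ℝ} (h0 : 0 ≤ a) (h : a ^ 2 = 1) : a = 1 := by
  have e : a ^ 2 = 1 ^ 2 := by rw [h, one_pow]
  exact (pow_left_inj₀ h0 zero_le_one two_ne_zero).1 e

theorem endgame {N M V u0 u1 v1 w0 : ℝ} (hN : 0 < N) (hN' : N < 9 / 40) (hM0 : 0 < M) (hV0 : 0 < V)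
    (hM : M ^ 2 = 3 / 4 - N ^ 2) (hV : V ^ 2 = 3 / 4 - (1 / 2 + N) ^ 2) (hv : v1 ^ 2 = M ^ 2)
    (hu : u1 ^ 2 = V ^ 2) (hg : (u0 - w0) ^ 2 = 1) (hs : u0 + w0 = 2 * N)
    (huv : (u0 - N) ^ 2 + (u1 - v1) ^ 2 ≤ 1)
    (hf : M + 2 * (N * V) ≤ |v1 * (u0 - w0) + 2 * (N * u1)|) :
    u0 = N + 1 / 2 ∧ w0 = N - 1 / 2 ∧ ((v1 = M ∧ u1 = V) ∨ (v1 = -M ∧ u1 = -V)) := by
  have hNV : 0 < N * V := mul_pos hN hV0
  have hMV : 0 < M * V := mul_pos hM0 hV0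
  have hvc : v1 = M ∨ v1 = -M := sq_eq_sq_iff_eq_or_eq_neg.1 hv
  have huc : u1 = V ∨ u1 = -V := sq_eq_sq_iff_eq_or_eq_neg.1 hu
  have hgc : u0 - w0 = 1 ∨ u0 - w0 = -1 := by
    have e : (u0 - w0) ^ 2 = 1 ^ 2 := by rw [hg, one_pow]
    exact sq_eq_sq_iff_eq_or_eq_neg.1 e
  have hN2 : N ^ 2 < (9 / 40) ^ 2 := pow_lt_pow_left₀ hN' hN.le two_ne_zero
  have hcontra : ¬ 1 / 4 + (V + M) ^ 2 ≤ 1 := by
    intro h
    have e : (V + M) ^ 2 = V ^ 2 + M ^ 2 + 2 * (M * V) := by ring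
    rw [e, hM, hV] at h
    nlinarith
  rcases hgc with hg1 | hg1
  · refine ⟨by linarith, by linarith, ?_⟩
    rw [hg1] at hf
    rcases hvc with h1 | h1 <;> rcases huc with h2 | h2
    · exact Or.inl ⟨h1, h2⟩
    · exfalso
      rw [h1, h2] at hf
      rcases le_abs.1 hf with h3 | h3 <;> linarith
    · exfalso
      rw [h1, h2] at hf
      rcases le_abs.1 hf with h3 | h3 <;> linarith
    · exact Or.inr ⟨h1, h2⟩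
  · exfalso
    have hu0 : u0 = N - 1 / 2 := by linarith
    rw [hg1] at hf
    rcases hvc with h1 | h1 <;> rcases huc with h2 | h2
    · rw [h1, h2] at hf
      rcases le_abs.1 hf with h3 | h3 <;> linarith
    · refine hcontra ?_
      rw [hu0, h1, h2] at huv
      have e : (N - 1 / 2 - N) ^ 2 + (-V - M) ^ 2 = 1 / 4 + (V + M) ^ 2 := by ring
      linarith
    · refine hcontra ?_
      rw [hu0, h1, h2] at huv
      have e : (N - 1 / 2 - N) ^ 2 + (V - -M) ^ 2 = 1 / 4 + (V + M) ^ 2 := by ring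
      linarith
    · rw [h1, h2] at hf
      rcases le_abs.1 hf with h3 | h3 <;> linarith

theorem thm (h : G_J47E) (hu : G_UNI4) : G_Q22E := by
  intro N hN hmax l1 l2 b0 u0 u1 v0 v1 w0 w1 hl10 hl11 hl20 hl21 hb0 hu1 hv1 hw1 hu2 hv2 hw2 hbb huv
    huw _ hf
  obtain ⟨-, -, hNl, hNu⟩ := hu N hN hmax
  have hN0 : 0 < N := by linarith
  have hN1 : N < 9 / 40 := by
    refine hNu.trans ?_
    norm_num
  obtain ⟨L, hL⟩ : ∃ L, L = l1 * l2 := ⟨_, rfl⟩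
  have hL0 : 0 ≤ L := by
    rw [hL]
    exact mul_nonneg hl10 hl20
  have hLl1 : L ≤ l1 := by
    rw [hL]
    exact mul_le_of_le_one_right hl10 hl21
  have hLl2 : L ≤ l2 := by
    rw [hL]
    exact mul_le_of_le_one_left hl20 hl11
  have hL1 : L ≤ 1 := hLl1.trans hl11
  have hLs : 2 * L ≤ l1 ^ 2 + l2 ^ 2 := by
    rw [hL]
    have := sq_nonneg (l1 - l2)
    have e : (l1 - l2) ^ 2 = l1 ^ 2 + l2 ^ 2 - 2 * (l1 * l2) := by ring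
    linarith
  obtain ⟨α, β, hα0', hβ0, hαβ, hβ, hα⟩ := scal hL0 hL1
  have hα0 := hα0' hL0
  have hab : α ≤ β := alpha_le hL0 hL1 hβ0 hβ hα
  obtain ⟨n, hn⟩ : ∃ n, n = b0 / 2 := ⟨_, rfl⟩
  obtain ⟨m0, hm⟩ : ∃ m0, m0 = b0 / 2 - v0 := ⟨_, rfl⟩
  have eb : b0 = 2 * n := by linarith
  have ev : v0 = n - m0 := by linarith
  have hn0 : 0 ≤ n := by linarith
  clear hn hm
  subst eb
  subst ev
  have p3 := pair3 hLs hu1 hw1 hu2 hw2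
  have p1 := c1 hL0 hL1 hα hLl1 hLl2 hv1 hv2
  have hval : f4 N ≤ L * |m0 * (u1 - w1) + v1 * (u0 - w0) + n * (u1 + w1)| := by
    have e : 2 * n * u1 + (u0 * v1 - u1 * (n - m0)) + ((n - m0) * w1 - v1 * w0) =
        m0 * (u1 - w1) + v1 * (u0 - w0) + n * (u1 + w1) := by ring
    rw [← e, hL]
    exact hf
  have p2 : (β * |u0 - w0|) ^ 2 + (β * |u1 - w1|) ^ 2 ≤ 1 := by
    rw [mul_pow, mul_pow, sq_abs, sq_abs, ← mul_add]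
    exact mul_le_one₀ (beta_le hL1 hβ) (add_nonneg (sq_nonneg _) (sq_nonneg _)) huw
  obtain ⟨r1, r2, r3, r4, r5, r6⟩ := h N hN hmax (α * n) (α * |m0|) (α * |v1|) (β * |u0 - w0|)
    (β * |u1 - w1|) (β * |u1 + w1|) (mul_nonneg hα0 hn0)
    (c4 hL0 hL1 hα (by linarith)) (mul_nonneg hα0 (abs_nonneg _)) (mul_nonneg hα0 (abs_nonneg _))
    (mul_nonneg hβ0 (abs_nonneg _)) (mul_nonneg hβ0 (abs_nonneg _))
    (mul_nonneg hβ0 (abs_nonneg _)) (by linarith [c1' hL0 hL1]) p2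
    (c3 hα0 hβ0 hn0 hab hβ p3) (value hL0 hn0 hαβ hval)
  have hN2 : N ^ 2 < (9 / 40) ^ 2 := pow_lt_pow_left₀ hN1 hN0.le two_ne_zero
  have hM2 : √(3 / 4 - N ^ 2) ^ 2 = 3 / 4 - N ^ 2 := Real.sq_sqrt (by linarith)
  have hMpos : 0 < √(3 / 4 - N ^ 2) := Real.sqrt_pos.2 (by linarith)
  have hVarg : 0 < 3 / 4 - (1 / 2 + N) ^ 2 := by nlinarith
  have hV2 : vv N ^ 2 = 3 / 4 - (1 / 2 + N) ^ 2 := Real.sq_sqrt hVarg.le
  have hVpos : 0 < vv N := Real.sqrt_pos.2 hVarg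
  have hSV : √(3 - (1 + 2 * N) ^ 2) = 2 * vv N := by
    have e : 3 - (1 + 2 * N) ^ 2 = 2 ^ 2 * (3 / 4 - (1 / 2 + N) ^ 2) := by ring
    rw [e, Real.sqrt_mul (by norm_num), Real.sqrt_sq (by norm_num)]
    rfl
  -- `L = 1`
  have hLone : L = 1 := by
    refine L_one hL0 hL1 ?_
    rw [r1, r2, r3, hM2, zero_add] at p1
    linarith
  have hl1 : l1 = 1 := le_antisymm hl11 (hLone ▸ hLl1)
  have hl2 : l2 = 1 := le_antisymm hl21 (hLone ▸ hLl2)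
  rw [hLone] at hα hβ p3
  have hα1 : α = 1 := one_of hα0 (by linarith)
  have hβ1 : β = 1 := one_of hβ0 (by linarith)
  rw [hα1, one_mul] at r1 r2 r3
  rw [hβ1, one_mul] at r4 r5 r6
  have hm0 : m0 = 0 := abs_eq_zero.1 r2
  have hw : u1 - w1 = 0 := abs_eq_zero.1 r5
  have hw' : w1 = u1 := by linarith
  have hv2' : v1 ^ 2 = √(3 / 4 - N ^ 2) ^ 2 := by rw [← sq_abs v1, r3]
  have hg2 : (u0 - w0) ^ 2 = 1 := by rw [← sq_abs, r4, one_pow]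
  have hs2 : (u1 + w1) ^ 2 = 4 * vv N ^ 2 := by
    rw [← sq_abs, r6, hSV]
    ring
  have hu2' : u1 ^ 2 = vv N ^ 2 := by
    rw [hw'] at hs2
    have e : (u1 + u1) ^ 2 = 4 * u1 ^ 2 := by ring
    linarith
  have hs0 : u0 + w0 = 2 * N := by
    rw [hs2, r4, hw, r1, hV2] at p3
    have q : (u0 + w0 - 2 * N) ^ 2 ≤ 0 := by
      have e : (1 + 2 * N) ^ 2 = 4 * (1 / 2 + N) ^ 2 := by ring
      linarith
    have q1 : u0 + w0 - 2 * N = 0 :=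
      pow_eq_zero_iff (two_ne_zero) |>.1 (le_antisymm q (sq_nonneg _))
    linarith
  have huv' : (u0 - N) ^ 2 + (u1 - v1) ^ 2 ≤ 1 := by
    rw [hm0, r1, sub_zero] at huv
    exact huv
  have hf' : √(3 / 4 - N ^ 2) + 2 * (N * vv N) ≤ |v1 * (u0 - w0) + 2 * (N * u1)| := by
    rw [hLone, hm0, r1, hw'] at hval
    have e : 1 * |0 * (u1 - u1) + v1 * (u0 - w0) + N * (u1 + u1)| =
        |v1 * (u0 - w0) + 2 * (N * u1)| := by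
      rw [one_mul]
      congr 1
      ring
    rw [e] at hval
    have e2 : f4 N = √(3 / 4 - N ^ 2) + 2 * (N * vv N) := by
      unfold f4
      rw [hSV]
      ring
    rw [← e2]
    exact hval
  obtain ⟨t1, t2, t3⟩ := endgame hN0 hN1 hMpos hVpos hM2 hV2 hv2' hu2' hg2 hs0 huv' hf'
  refine ⟨hl1, hl2, by rw [r1], by rw [hm0, r1, sub_zero], t1, t2, ?_⟩
  rcases t3 with ⟨a1, a2⟩ | ⟨a1, a2⟩
  · exact Or.inl ⟨a1, a2, by rw [hw', a2]⟩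
  · exact Or.inr ⟨a1, a2, by rw [hw', a2]⟩

end Pool.Agent.Helper75.Vol4.PkQ22E
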